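import Pool.Agent.MP_807c24_nt.H28.Spec

/-! An integer combination of multiple polylogarithms with tiny moments. -/

namespace Pool.Agent.MP_807c24_nt.H89

open Finset H28 MeasureTheory

/-- bounded sequences -/
def Bd (c : ℕ → ℝ) : Prop := ∃ C, ∀ k, |c k| ≤ C

lemma Bd.add {c c' : ℕ → ℝ} (h : Bd c) (h' : Bd c') : Bd (c + c') := by
  obtain ⟨C, h⟩ := h
  obtain ⟨C', h'⟩ := h'
  exact ⟨C + C', fun k => (abs_add_le _ _).trans (add_le_add (h k) (h' k))⟩

lemma Bd.smul (a : ℝ) {c : ℕ → ℝ} (h : Bd c) : Bd (a • c) := by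
  obtain ⟨C, h⟩ := h
  exact ⟨|a| * C, fun k => by
    rw [Pi.smul_apply, smul_eq_mul, abs_mul]; exact mul_le_mul_of_nonneg_left (h k) (abs_nonneg a)⟩

lemma bd_zero : Bd 0 := ⟨0, by simp⟩

lemma bd_nil : Bd (coef []) := ⟨1, fun k => by simp only [coef]; split_ifs <;> simp⟩

lemma ser_nil (s : ℝ) : ser (coef []) s = 1 := by
  rw [ser, tsum_eq_single 0 fun k hk => by simp [coef, hk]]
  simp [coef]

lemma ser_smul (a : ℝ) (c : ℕ → ℝ) (s : ℝ) : ser (a • c) s = a * ser c s := by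
  simp [ser, ← tsum_mul_left, mul_assoc]

lemma ser_zero (s : ℝ) : ser 0 s = 0 := by simp [ser]

lemma Bd.summable {c : ℕ → ℝ} (h : Bd c) {s : ℝ} (hs : s ∈ Set.Ioo (0:ℝ) 1) :
    Summable fun k => c k * s ^ k := by
  obtain ⟨C, h⟩ := h
  refine .of_norm_bounded ((summable_geometric_of_lt_one hs.1.le hs.2).mul_left C) fun k => ?_
  rw [Real.norm_eq_abs, abs_mul, abs_of_nonneg (pow_nonneg hs.1.le k)]
  exact mul_le_mul_of_nonneg_right (h k) (pow_nonneg hs.1.le k)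

lemma ser_add {c c' : ℕ → ℝ} (h : Bd c) (h' : Bd c') {s : ℝ} (hs : s ∈ Set.Ioo (0:ℝ) 1) :
    ser (c + c') s = ser c s + ser c' s := by
  simp [ser, add_mul, (h.summable hs).tsum_add (h'.summable hs)]

lemma ser_sum {ι : Type} (T : Finset ι) (c : ι → ℕ → ℝ) (h : ∀ i, Bd (c i)) {s : ℝ}
    (hs : s ∈ Set.Ioo (0:ℝ) 1) : ser (fun k => ∑ i ∈ T, c i k) s = ∑ i ∈ T, ser (c i) s := by
  simp only [ser, sum_mul]
  exact Summable.tsum_finsetSum fun i _ => (h i).summable hs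

/-- multiplication of a series by the variable -/
def shf (c : ℕ → ℝ) : ℕ → ℝ
  | 0 => 0
  | k + 1 => c k

lemma shf_le {c : ℕ → ℝ} {C : ℝ} (h : ∀ k, |c k| ≤ C) : ∀ k, |shf c k| ≤ C
  | 0 => by simpa [shf] using (abs_nonneg _).trans (h 0)
  | k + 1 => h k

lemma ser_shf {c : ℕ → ℝ} {C : ℝ} (h : ∀ k, |c k| ≤ C) {s : ℝ} (hs : s ∈ Set.Ioo (0:ℝ) 1) :
    ser (shf c) s = s * ser c s := by
  rw [ser, (Bd.summable ⟨C, shf_le h⟩ hs).tsum_eq_zero_add]
  simp [shf, ser, ← tsum_mul_left, pow_succ, mul_comm, mul_left_comm]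

lemma exists_pow_mul {c : ℕ → ℝ} {C : ℝ} (h : ∀ k, |c k| ≤ C) (i : ℕ) : ∃ a : ℕ → ℝ,
    (∀ k, |a k| ≤ 2 ^ i * C) ∧ ∀ s ∈ Set.Ioo (0:ℝ) 1, ser a s = s ^ i * ser c s := by
  induction i with
  | zero => exact ⟨c, by simpa using h, by simp⟩
  | succ i ih =>
    obtain ⟨a, h1, h2⟩ := ih
    refine ⟨shf a, fun k => (shf_le h1 k).trans ?_, fun s hs => by rw [ser_shf h1 hs, h2 s hs]; ring⟩
    have := (abs_nonneg _).trans (h1 0)
    rw [pow_succ]; linarith

lemma exists_one_sub_pow_mul {c : ℕ → ℝ} {C : ℝ} (h : ∀ k, |c k| ≤ C) (i : ℕ) : ∃ a : ℕ → ℝ,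
    (∀ k, |a k| ≤ 2 ^ i * C) ∧ ∀ s ∈ Set.Ioo (0:ℝ) 1, ser a s = (1 - s) ^ i * ser c s := by
  induction i with
  | zero => exact ⟨c, by simpa using h, by simp⟩
  | succ i ih =>
    obtain ⟨a, h1, h2⟩ := ih
    refine ⟨a + (-1 : ℝ) • shf a, fun k => (abs_add_le _ _).trans ?_, fun s hs => ?_⟩
    · have := h1 k
      have := shf_le h1 k
      simp only [Pi.smul_apply, smul_eq_mul, neg_mul, one_mul, abs_neg, pow_succ]
      linarith
    · rw [ser_add ⟨_, h1⟩ (Bd.smul _ ⟨_, shf_le h1⟩) hs, ser_smul, ser_shf h1 hs, h2 s hs]; ring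

lemma ser_small {b : ℕ → ℝ} {D : ℝ} {M : ℕ} (h1 : ∀ k, |b k| ≤ D)
    (h2 : ∀ k < M, |b k| ≤ 2 * D / 2 ^ M) {s : ℝ} (hs : 0 < s) (hs' : s ≤ 1 / 2) :
    |ser b s| ≤ 6 * D / 2 ^ M := by
  have hD := (abs_nonneg _).trans (h1 0)
  have hp : ∀ k, |s ^ k| ≤ (1 / 2) ^ k := fun k => by
    rw [abs_of_nonneg (pow_nonneg hs.le k)]; exact pow_le_pow_left₀ hs.le hs' k
  rw [ser, ← (Bd.summable ⟨D, h1⟩ ⟨hs, by linarith⟩).sum_add_tsum_nat_add M]
  have a1 : |∑ k ∈ range M, b k * s ^ k| ≤ 2 * D / 2 ^ M * 2 := by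
    refine (abs_sum_le_sum_abs _ _).trans (le_trans (sum_le_sum fun k hk => ?_)
      ((mul_sum _ _ _).ge.trans (mul_le_mul_of_nonneg_left (sum_geometric_two_le M)
        (by positivity))))
    rw [abs_mul]
    exact mul_le_mul (h2 k (mem_range.1 hk)) (hp k) (abs_nonneg _) (by positivity)
  have a2 : |∑' k, b (k + M) * s ^ (k + M)| ≤ D / 2 ^ M * 2 := by
    rw [← Real.norm_eq_abs]
    refine tsum_of_norm_bounded (hasSum_geometric_two.mul_left _) fun k => ?_
    rw [Real.norm_eq_abs, abs_mul]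
    refine (mul_le_mul (h1 _) (hp _) (abs_nonneg _) hD).trans_eq ?_
    rw [pow_add, one_div, inv_pow, inv_pow]; ring
  refine (abs_add_le _ _).trans ((add_le_add a1 a2).trans_eq ?_)
  ring

/-- the logarithm at the point one -/
noncomputable def lg (t : ℝ) : ℝ := Li [true] (1 - t)

/-- polynomials in the logarithm with bounded series as coefficients -/
def LP (j : ℕ) (f : ℝ → ℝ) : Prop := ∃ c : ℕ → ℕ → ℝ, (∀ i, Bd (c i)) ∧
  ∀ t ∈ Set.Ioo (0:ℝ) 1, f t = ∑ i ∈ range (j + 1), lg t ^ i * ser (c i) t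

lemma LP.add {j : ℕ} {f g : ℝ → ℝ} (hf : LP j f) (hg : LP j g) : LP j fun t => f t + g t := by
  obtain ⟨c, h1, h2⟩ := hf
  obtain ⟨c', h3, h4⟩ := hg
  refine ⟨c + c', fun i => (h1 i).add (h3 i), fun t ht => ?_⟩
  simp only [h2 t ht, h4 t ht, ← sum_add_distrib]
  exact sum_congr rfl fun i _ => by rw [Pi.add_apply, ser_add (h1 i) (h3 i) ht, mul_add]

lemma LP.smul (a : ℝ) {j : ℕ} {f : ℝ → ℝ} (hf : LP j f) : LP j fun t => a * f t := by
  obtain ⟨c, h1, h2⟩ := hf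
  refine ⟨a • c, fun i => (h1 i).smul a, fun t ht => ?_⟩
  simp only [h2 t ht, mul_sum]
  exact sum_congr rfl fun i _ => by rw [Pi.smul_apply, ser_smul]; ring

lemma LP.mono {j j' : ℕ} (h : j ≤ j') {f : ℝ → ℝ} (hf : LP j f) : LP j' f := by
  obtain ⟨c, h1, h2⟩ := hf
  refine ⟨fun i => if i < j + 1 then c i else 0, fun i => ?_, fun t ht => ?_⟩
  · dsimp only; split_ifs; exacts [h1 i, bd_zero]
  · rw [h2 t ht, ← sum_subset (range_mono (Nat.succ_le_succ h)) fun i _ hi => by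
      simp only [mem_range.not.1 hi, if_false, ser_zero, mul_zero]]
    exact sum_congr rfl fun i hi => by simp only [mem_range.1 hi, if_true]

lemma LP.single (j : ℕ) {c : ℕ → ℝ} (h : Bd c) : LP j fun t => lg t ^ j * ser c t := by
  refine ⟨fun i => if i = j then c else 0, fun i => ?_, fun t ht => ?_⟩
  · dsimp only; split_ifs; exacts [h, bd_zero]
  · rw [sum_eq_single j (fun i _ hi => by simp [hi, ser_zero]) (by simp)]
    simp

/-- functions with a primitive in `LP j` -/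
def Prim (j : ℕ) (g : ℝ → ℝ) : Prop :=
  ∃ F, LP j F ∧ ∀ t ∈ Set.Ioo (0:ℝ) 1, HasDerivAt F (g t) t

lemma Prim.add {j : ℕ} {f g : ℝ → ℝ} (hf : Prim j f) (hg : Prim j g) :
    Prim j fun t => f t + g t := by
  obtain ⟨F, h1, h2⟩ := hf
  obtain ⟨G, h3, h4⟩ := hg
  exact ⟨_, h1.add h3, fun t ht => (h2 t ht).add (h4 t ht)⟩

lemma Prim.smul (a : ℝ) {j : ℕ} {f : ℝ → ℝ} (hf : Prim j f) : Prim j fun t => a * f t := by
  obtain ⟨F, h1, h2⟩ := hf
  exact ⟨_, h1.smul a, fun t ht => (h2 t ht).const_mul a⟩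

lemma Prim.mono {j j' : ℕ} (h : j ≤ j') {f : ℝ → ℝ} (hf : Prim j f) : Prim j' f :=
  hf.imp fun _ hF => ⟨hF.1.mono h, hF.2⟩

lemma Prim.congr {j : ℕ} {f g : ℝ → ℝ} (hf : Prim j f) (h : ∀ t ∈ Set.Ioo (0:ℝ) 1, f t = g t) :
    Prim j g := hf.imp fun _ hF => ⟨hF.1, fun t ht => h t ht ▸ hF.2 t ht⟩

lemma Prim.sum {j : ℕ} (T : Finset ℕ) {f : ℕ → ℝ → ℝ} (hf : ∀ i ∈ T, Prim j (f i)) :
    Prim j fun t => ∑ i ∈ T, f i t := by
  induction T using Finset.induction_on with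
  | empty => exact ⟨fun _ => 0, ⟨0, fun _ => bd_zero, by simp [ser_zero]⟩, fun t _ => by
      simpa using hasDerivAt_const t (0:ℝ)⟩
  | insert a T ha ih =>
    simp only [sum_insert ha]
    exact (hf a (mem_insert_self _ _)).add (ih fun i hi => hf i (mem_insert_of_mem hi))

lemma Prim.lp {j : ℕ} {g G : ℝ → ℝ} (h : Prim j g)
    (hG : ∀ t ∈ Set.Ioo (0:ℝ) 1, HasDerivAt G (g t) t) : LP j G := by
  obtain ⟨F, h1, h2⟩ := h
  obtain ⟨a, ha⟩ := isOpen_Ioo.exists_eq_add_of_deriv_eq isPreconnected_Ioo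
    (fun t ht => (hG t ht).differentiableAt.differentiableWithinAt)
    (fun t ht => (h2 t ht).differentiableAt.differentiableWithinAt)
    fun t ht => (hG t ht).deriv.trans (h2 t ht).deriv.symm
  obtain ⟨c, h3, h4⟩ := h1.add (((LP.single 0 bd_nil).smul a).mono j.zero_le)
  exact ⟨c, h3, fun t ht => by rw [ha ht, ← h4 t ht]; simp [ser_nil]⟩

lemma one_sub_mem {t : ℝ} (ht : t ∈ Set.Ioo (0:ℝ) 1) : 1 - t ∈ Set.Ioo (0:ℝ) 1 :=
  ⟨by linarith [ht.2], by linarith [ht.1]⟩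

section
variable (hS : SerStmt)
include hS

lemma lg_deriv {t : ℝ} (ht : t ∈ Set.Ioo (0:ℝ) 1) : HasDerivAt lg (-(1 / t)) t := by
  obtain ⟨C, hC⟩ := bd_nil
  have := ((hS _ C hC).2.2 _ (one_sub_mem ht)).2.2.comp_const_sub 1 t
  rw [ser_nil, sub_sub_cancel] at this
  exact this

lemma prim_step (j : ℕ) {H : ℕ → ℝ} (hH : Bd H) {g : ℝ → ℝ}
    (hg : ∀ t ∈ Set.Ioo (0:ℝ) 1, HasDerivAt (ser H) (g t) t)
    (ih : ∀ i, j = i + 1 → Prim i fun t => lg t ^ i * ser H t / t) :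
    Prim j fun t => lg t ^ j * g t := by
  have h1 : Prim j fun t => j * lg t ^ (j - 1) * -(1 / t) * ser H t + lg t ^ j * g t :=
    ⟨_, LP.single j hH, fun t ht => ((lg_deriv hS ht).pow j).mul (hg t ht)⟩
  rcases j with _ | i
  · exact h1.congr (by simp)
  · exact (h1.add (((ih i rfl).smul (i + 1 : ℕ)).mono i.le_succ)).congr fun t _ => by
      simp only [Nat.add_sub_cancel]; ring

lemma primA (j : ℕ) {c : ℕ → ℝ} (h : Bd c) (h0 : c 0 = 0) :
    Prim j fun t => lg t ^ j * ser c t / t := by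
  induction j using Nat.strong_induction_on generalizing c with
  | _ j ih =>
    obtain ⟨C, hC⟩ := h
    have := hS c C hC
    refine (prim_step hS j ⟨C, this.1⟩ (fun t ht => (this.2.2 t ht).2.1)
      fun i hi => ih i (by omega) ⟨C, this.1⟩ (by simp [op0])).congr fun t _ => ?_
    rw [h0, sub_zero, mul_div_assoc]

lemma primB (j : ℕ) {c : ℕ → ℝ} (h : Bd c) : Prim (j + 1) fun t => lg t ^ j * ser c t / t := by
  have h1 : Prim (j + 1) fun t => (j + 1 : ℕ) * lg t ^ j * -(1 / t) :=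
    ⟨fun t => lg t ^ (j + 1), by simpa [ser_nil] using LP.single (j + 1) bd_nil,
      fun t ht => (lg_deriv hS ht).pow (j + 1)⟩
  refine (((primA hS j (h.add (bd_nil.smul (-c 0))) (by simp [coef])).mono j.le_succ).add
    (h1.smul (-c 0 / (j + 1 : ℕ)))).congr fun t ht => ?_
  rw [ser_add h (bd_nil.smul _) ht, ser_smul, ser_nil]
  have := ht.1.ne'
  field_simp
  ring

lemma primC (j : ℕ) {c : ℕ → ℝ} (h : Bd c) : Prim j fun t => lg t ^ j * ser c t / (1 - t) := by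
  obtain ⟨C, hC⟩ := h
  have := hS c C hC
  exact (prim_step hS j ⟨C, this.2.1⟩ (fun t ht => (this.2.2 t ht).2.2)
    fun i _ => primA hS i ⟨C, this.2.1⟩ (by simp [op1])).congr fun t _ => by rw [mul_div_assoc]

lemma lp_Li (hb : ∀ w k, |coef w k| ≤ 1) (w : List Bool) (hw : good w) :
    LP (dep w) fun t => Li w (1 - t) := by
  induction w with
  | nil => simpa [Li, ser_nil, dep] using LP.single 0 bd_nil
  | cons b w ih =>
    cases b with
    | true =>
      obtain ⟨c, h1, h2⟩ := ih hw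
      have : dep (true :: w) = dep w + 1 := by simp [dep]
      rw [this]
      refine (((Prim.sum (range (dep w + 1)) fun i hi => (primB hS i (h1 i)).mono
        (mem_range.1 hi)).smul (-1)).congr fun t ht => ?_).lp
        fun t ht => ((hS _ 1 (hb w)).2.2 _ (one_sub_mem ht)).2.2.comp_const_sub 1 t
      rw [← sum_div, ← h2 t ht, sub_sub_cancel, neg_one_mul]; rfl
    | false =>
      obtain ⟨c, h1, h2⟩ := ih hw.2
      have : dep (false :: w) = dep w := by simp [dep]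
      have h0 : coef w 0 = 0 := by
        rcases w with _ | ⟨_ | _, w⟩
        exacts [absurd rfl hw.1, by simp [coef, op0], by simp [coef, op1]]
      rw [this]
      refine (((Prim.sum (range (dep w + 1)) fun i hi => (primC hS i (h1 i)).mono
        (Nat.lt_succ_iff.1 (mem_range.1 hi))).smul (-1)).congr fun t ht => ?_).lp
        fun t ht => ((hS _ 1 (hb w)).2.2 _ (one_sub_mem ht)).2.1.comp_const_sub 1 t
      rw [← sum_div, ← h2 t ht, h0, sub_zero, neg_one_mul]; simp [Li]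

end

lemma list_integral {α : Type} {μ : Measure ℝ} (L : List α) (g : α → ℝ → ℝ)
    (h : ∀ w ∈ L, Integrable (g w) μ) : Integrable (fun s => (L.map fun w => g w s).sum) μ ∧
      ∫ s, (L.map fun w => g w s).sum ∂μ = (L.map fun w => ∫ s, g w s ∂μ).sum := by
  induction L with
  | nil => simp
  | cons a L ih =>
    have h1 := h a List.mem_cons_self
    obtain ⟨h2, h3⟩ := ih fun w hw => h w (List.mem_cons_of_mem _ hw)
    simp only [List.map_cons, List.sum_cons]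
    exact ⟨h1.add h2, by rw [integral_add h1 h2, h3]⟩

theorem small (hB : BoxStmt) (hS : SerStmt) (hL : LiStmt) : SmallStmt := by
  classical
  obtain ⟨hc, hsh, -, hmul, -, -, hint, -⟩ := hL
  have hb : ∀ w k, |coef w k| ≤ 1 := fun w k => abs_le.2 ⟨by linarith [(hc w k).1], (hc w k).2⟩
  have hnn : ∀ w, ∀ s ∈ Set.Ioo (0:ℝ) 1, 0 ≤ Li w s := fun w s hs =>
    tsum_nonneg fun k => mul_nonneg (hc w k).1 (pow_nonneg hs.1.le k)
  have hi0 : ∀ w, IntegrableOn (Li w) (Set.Ioo 0 1) := fun w =>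
    (intervalIntegrable_iff_integrableOn_Ioo_of_le zero_le_one).1 (hint w)
  have hi1 : ∀ (M : ℕ) w, IntegrableOn (fun s => s ^ M * Li w s) (Set.Ioo 0 1) := fun M w =>
    (intervalIntegrable_iff_integrableOn_Ioo_of_le zero_le_one).1
      ((hint w).continuousOn_mul (by fun_prop))
  have hi2 : ∀ (j : ℕ) w, good w →
      IntegrableOn (fun s => Li [true] s ^ j * Li w s) (Set.Ioo 0 1) := fun j => by
    induction j with
    | zero => simpa using fun w _ => hi0 w
    | succ j ih =>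
      intro w hw
      refine IntegrableOn.congr_fun (list_integral (sh [true] w) _ fun v hv =>
        ih v (hsh [true] w v trivial hw hv).1).1 (fun s hs => ?_) measurableSet_Ioo
      simp only [List.sum_map_mul_left]
      rw [← hmul [true] w trivial hw s hs]; ring
  have hI : ∀ (M : ℕ) u t, good u → good t →
      IntegrableOn (fun s => s ^ M * (Li u s * Li t s)) (Set.Ioo 0 1) ∧
      ((sh u t).map (Iw M)).sum = ∫ s in Set.Ioo 0 1, s ^ M * (Li u s * Li t s) :=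
    fun M u t hu ht => by
      obtain ⟨a1, a2⟩ := list_integral (sh u t) _ fun v _ => hi1 M v
      have a3 : Set.EqOn (fun s : ℝ => ((sh u t).map fun w => s ^ M * Li w s).sum)
          (fun s => s ^ M * (Li u s * Li t s)) (Set.Ioo 0 1) := fun s hs => by
        simp only [List.sum_map_mul_left, hmul u t hu ht s hs]
      refine ⟨IntegrableOn.congr_fun a1 a3 measurableSet_Ioo, ?_⟩
      rw [← setIntegral_congr_fun measurableSet_Ioo a3, a2]
      congr 2
      funext w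
      rw [Iw, intervalIntegral.integral_of_le zero_le_one, integral_Ioc_eq_integral_Ioo]
  intro U r hU
  choose h h1 h2 using fun u : U => (lp_Li hS hb u (hU u u.2).1).mono (hU u u.2).2
  choose D hD using h1
  set C0 : ℝ := 1 + ∑ u : U, ∑ j ∈ range (r + 1), |D u j| with hC0
  have hC1 : 1 ≤ C0 := le_add_of_nonneg_right (by positivity)
  have hC2 : ∀ u, ∀ j < r + 1, ∀ k, |h u j k| ≤ C0 := fun u j hj k => by
    have a1 := single_le_sum (f := fun j => |D u j|) (fun _ _ => abs_nonneg _) (mem_range.2 hj)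
    have a2 := single_le_sum (f := fun u => ∑ j ∈ range (r + 1), |D u j|)
      (fun _ _ => by positivity) (mem_univ u)
    linarith [hD u j k, le_abs_self (D u j)]
  set J : List Bool → ℝ := fun t =>
    ∫ s in Set.Ioo 0 1, ∑ j ∈ range (r + 1), Li [true] s ^ j * Li t s with hJ
  refine ⟨6 * U.card * C0 * ∑ t ∈ U, |J t| + 1, by positivity, fun n B M hM => ?_⟩
  choose a0 a1 a2 using fun x : U × Fin (n + 1) =>
    exists_pow_mul (fun k => (hb x.1 k).trans hC1) x.2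
  choose b0 b1 b2 using fun (j : Fin (r + 1)) (x : U × Fin (n + 1)) =>
    exists_one_sub_pow_mul (hC2 x.1 j j.2) x.2
  set a : Fin (r + 2) → U × Fin (n + 1) → ℕ → ℝ := Fin.cons a0 b0 with ha
  set A : ℝ := U.card * (n + 1) * (2 ^ n * C0) with hA
  have ha1 : ∀ j x k, |a j x k| ≤ 2 ^ n * C0 := fun j x k => by
    have : (2:ℝ) ^ (x.2 : ℕ) * C0 ≤ 2 ^ n * C0 := by
      have := Nat.lt_succ_iff.1 x.2.2
      gcongr; norm_num
    refine Fin.cases ?_ (fun j => ?_) j
    exacts [(a1 x k).trans this, (b1 j x k).trans this]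
  have ha2 : ∀ j k, ∑ x, |a j x k| ≤ A := fun j k =>
    (sum_le_card_nsmul _ _ _ fun x _ => ha1 j x k).trans_eq (by simp [hA])
  obtain ⟨c, hc0, hc1, hc2⟩ := hB (U × Fin (n + 1)) (Fin (r + 2) × Fin M)
    (fun y x => a y.1 x y.2) A B (2 ^ M) (by positivity) (fun y => ha2 _ _) (by
      simp only [Fintype.card_prod, Fintype.card_fin, Fintype.card_coe, ← pow_mul]
      convert hM using 2; ring)
  have hsm : ∀ j, ∀ s : ℝ, 0 < s → s ≤ 1 / 2 →
      |∑ x, c x * ser (a j x) s| ≤ 6 * (A * B) / 2 ^ M := fun j s hs hs' => by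
    have := ser_small (b := fun k => ∑ x, ((c x : ℝ) • a j x) k) (D := A * B) (M := M)
      (fun k => (abs_sum_le_sum_abs _ _).trans (le_trans (sum_le_sum fun x _ => by
        rw [Pi.smul_apply, smul_eq_mul, abs_mul, mul_comm]
        exact mul_le_mul_of_nonneg_left (by exact_mod_cast hc1 x) (abs_nonneg _))
        ((sum_mul _ _ (B : ℝ)).ge.trans (mul_le_mul_of_nonneg_right (ha2 j k) (by positivity)))))
      (fun k hk => by simpa [mul_assoc] using hc2 (j, ⟨k, hk⟩)) hs hs'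
    rw [ser_sum _ _ (fun x => Bd.smul _ ⟨_, ha1 j x⟩) ⟨hs, by linarith⟩] at this
    simpa only [ser_smul] using this
  have hε : 0 ≤ 6 * (A * B) / 2 ^ M := by positivity
  have hphi : ∀ s ∈ Set.Ioo (0:ℝ) 1, |∑ x, c x * (s ^ (x.2 : ℕ) * Li x.1 s)| ≤
      6 * (A * B) / 2 ^ M * ∑ j ∈ range (r + 1), Li [true] s ^ j := fun s hs => by
    have h0 := hnn [true] s hs
    rcases le_total s (1 / 2) with hs' | hs'
    · have := hsm 0 s hs.1 hs'
      simp only [ha, Fin.cons_zero, a2 _ s hs] at this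
      refine this.trans (le_mul_of_one_le_right hε ?_)
      rw [sum_range_succ', pow_zero]
      exact le_add_of_nonneg_left (by positivity)
    · have ht := one_sub_mem hs
      have e1 : ∑ x, c x * (s ^ (x.2 : ℕ) * Li x.1 s) =
          ∑ j : Fin (r + 1), Li [true] s ^ (j : ℕ) * ∑ x, c x * ser (a j.succ x) (1 - s) := by
        simp only [ha, Fin.cons_succ, b2 _ _ _ ht, sub_sub_cancel, mul_sum]
        rw [sum_comm]
        refine sum_congr rfl fun x _ => ?_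
        have := h2 x.1 _ ht
        simp only [lg, sub_sub_cancel] at this
        rw [this, sum_range, mul_sum, mul_sum]
        exact sum_congr rfl fun j _ => by ring
      rw [e1, sum_range, mul_sum]
      refine (abs_sum_le_sum_abs _ _).trans (sum_le_sum fun j _ => ?_)
      rw [abs_mul, abs_of_nonneg (pow_nonneg h0 _), mul_comm]
      exact mul_le_mul_of_nonneg_right (hsm _ _ ht.1 (by linarith)) (pow_nonneg h0 _)
  refine ⟨fun u i => if h : u ∈ U ∧ i < n + 1 then c (⟨u, h.1⟩, ⟨i, h.2⟩) else 0, ?_,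
    fun u i => ?_, fun t ht m => ?_⟩
  · obtain ⟨x, hx⟩ := Function.ne_iff.1 hc0
    exact ⟨x.1, x.1.2, x.2, Nat.lt_succ_iff.1 x.2.2, by simpa [x.1.2, x.2.2] using hx⟩
  · dsimp only; split_ifs
    exacts [hc1 _, by simp]
  have gt := (hU t ht).1
  have e1 : ∑ u ∈ U, ∑ i ∈ range (n + 1),
      ((if h : u ∈ U ∧ i < n + 1 then c (⟨u, h.1⟩, ⟨i, h.2⟩) else 0 : ℤ) : ℝ) *
        ((sh u t).map (Iw (m + i))).sum =
      ∫ s in Set.Ioo 0 1, ∑ x, c x * (s ^ (m + x.2) * (Li x.1 s * Li t s)) := by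
    rw [integral_finsetSum _ fun x _ => (hI _ _ _ (hU _ x.1.2).1 gt).1.const_mul _,
      Fintype.sum_prod_type, ← sum_coe_sort]
    refine sum_congr rfl fun u _ => ?_
    rw [sum_range]
    refine sum_congr rfl fun i _ => ?_
    rw [dif_pos ⟨u.2, i.2⟩, integral_const_mul, (hI _ _ _ (hU _ u.2).1 gt).2]
  rw [e1]
  have e2 : |∫ s in Set.Ioo (0:ℝ) 1, ∑ x, c x * (s ^ (m + x.2) * (Li x.1 s * Li t s))| ≤
      6 * (A * B) / 2 ^ M * J t := by
    rw [hJ, ← integral_const_mul, ← Real.norm_eq_abs]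
    refine norm_integral_le_of_norm_le ((integrable_finsetSum _ fun j _ => hi2 j t gt).const_mul _)
      (ae_restrict_of_forall_mem measurableSet_Ioo fun s hs => ?_)
    have : ∑ x, c x * (s ^ (m + x.2) * (Li x.1 s * Li t s)) =
        (∑ x, c x * (s ^ (x.2 : ℕ) * Li x.1 s)) * (s ^ m * Li t s) := by
      rw [sum_mul]; exact sum_congr rfl fun x _ => by ring
    have h3 := hnn t s hs
    have h4 : s ^ m * Li t s ≤ Li t s := mul_le_of_le_one_left h3 (pow_le_one₀ hs.1.le hs.2.le)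
    have h5 : 0 ≤ s ^ m * Li t s := mul_nonneg (pow_nonneg hs.1.le m) h3
    rw [this, Real.norm_eq_abs, abs_mul, abs_of_nonneg h5, ← sum_mul, ← mul_assoc (6 * (A * B) / 2 ^ M)]
    exact mul_le_mul (hphi s hs) h4 h5 ((abs_nonneg _).trans (hphi s hs))
  have e3 : J t ≤ ∑ t ∈ U, |J t| :=
    (le_abs_self _).trans (single_le_sum (f := fun t => |J t|) (fun _ _ => abs_nonneg _) ht)
  refine e2.trans ((mul_le_mul_of_nonneg_left e3 hε).trans ?_)
  have e4 : (0:ℝ) ≤ (n + 1) * 2 ^ n * B / 2 ^ M := by positivity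
  calc _ = 6 * U.card * C0 * (∑ t ∈ U, |J t|) * ((n + 1) * 2 ^ n * B / 2 ^ M) := by rw [hA]; ring
    _ ≤ (6 * U.card * C0 * (∑ t ∈ U, |J t|) + 1) * ((n + 1) * 2 ^ n * B / 2 ^ M) := by
      gcongr; linarith
    _ = _ := by ring

end Pool.Agent.MP_807c24_nt.H89
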